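import Mathlib

/-!
# Rhombic dodecahedra in `ℝ^d`: definitions
-/

set_option autoImplicit false

open MeasureTheory Set
open scoped Pointwise

namespace Q188.Rhomb

/-- The zonotope `∑ i, [o, p i]`, a Minkowski sum of segments. -/
def Zono {d n : ℕ} (p : Fin n → EuclideanSpace ℝ (Fin d)) : Set (EuclideanSpace ℝ (Fin d)) :=
  ∑ i, segment ℝ 0 (p i)

/-- A rhombic dodecahedron in `ℝ^d`: a `d`-dimensional zonotope generated by `d + 1` segments. -/
def IsRhombic {d : ℕ} (Z : Set (EuclideanSpace ℝ (Fin d))) : Prop :=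
  ∃ p : Fin (d + 1) → EuclideanSpace ℝ (Fin d),
    Submodule.span ℝ (range p) = ⊤ ∧ Z = Zono p

/-- A regular rhombic dodecahedron: a translate of `∑ i, [o, p i]`, where the `p i` are the vertices
of a regular simplex centred at the origin. -/
def IsRegularRhombic {d : ℕ} (Z : Set (EuclideanSpace ℝ (Fin d))) : Prop :=
  ∃ (v : EuclideanSpace ℝ (Fin d)) (p : Fin (d + 1) → EuclideanSpace ℝ (Fin d)),
    (∃ l : ℝ, 0 < l ∧ ∀ i j, i ≠ j → dist (p i) (p j) = l) ∧ ∑ i, p i = 0 ∧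
      Z = (fun x => v + x) '' Zono p

/-- The circumradius of `Z`: the infimum of the radii of the closed balls containing `Z`. -/
noncomputable def circumradius {d : ℕ} (Z : Set (EuclideanSpace ℝ (Fin d))) : ℝ :=
  sInf {r : ℝ | 0 ≤ r ∧ ∃ c, Z ⊆ Metric.closedBall c r}

theorem mem_Zono {d n : ℕ} (p : Fin n → EuclideanSpace ℝ (Fin d)) (x : EuclideanSpace ℝ (Fin d)) :
    x ∈ Zono p ↔ ∃ t : Fin n → ℝ, (∀ i, 0 ≤ t i ∧ t i ≤ 1) ∧ x = ∑ i, t i • p i := by
  unfold Zono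
  rw [Set.mem_fintype_sum]
  constructor
  · rintro ⟨g, hg, rfl⟩
    have : ∀ i, ∃ t : ℝ, (0 ≤ t ∧ t ≤ 1) ∧ g i = t • p i := by
      intro i
      have := hg i
      rw [segment_eq_image] at this
      obtain ⟨t, ht, h⟩ := this
      refine ⟨t, ⟨ht.1, ht.2⟩, ?_⟩
      rw [← h]
      simp
    choose t ht h using this
    exact ⟨t, ht, by simp only [h]⟩
  · rintro ⟨t, ht, rfl⟩
    refine ⟨fun i => t i • p i, fun i => ?_, rfl⟩
    rw [segment_eq_image]
    exact ⟨t i, ⟨(ht i).1, (ht i).2⟩, by simp⟩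

end Q188.Rhomb
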