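import Pool.Agent.Q188.Rhomb.Vol
import Pool.Agent.Q188.Iso.Proj

/-!
# The family of rhombic dodecahedra with the same volume and circumradius
-/

set_option autoImplicit false

open MeasureTheory Set
open scoped Pointwise

namespace Q188.Rhomb

open Q188.Iso

theorem D_zero_of_span (g : Fin 4 → E3) (hall : ∀ i j k, D3 (g i).ofLp (g j).ofLp (g k).ofLp = 0)
    (x y z : E3) (hx : x ∈ Submodule.span ℝ (range g)) (hy : y ∈ Submodule.span ℝ (range g))
    (hz : z ∈ Submodule.span ℝ (range g)) : D3 x.ofLp y.ofLp z.ofLp = 0 := by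
  induction hx using Submodule.span_induction with
  | zero => unfold D3; simp
  | add a b _ _ ha hb =>
    have : D3 (a + b).ofLp y.ofLp z.ofLp = D3 a.ofLp y.ofLp z.ofLp + D3 b.ofLp y.ofLp z.ofLp := by
      unfold D3; simp; ring
    rw [this, ha, hb, add_zero]
  | smul r a _ ha =>
    have : D3 (r • a).ofLp y.ofLp z.ofLp = r * D3 a.ofLp y.ofLp z.ofLp := by
      unfold D3; simp; ring
    rw [this, ha, mul_zero]
  | mem x hx =>
    obtain ⟨i, rfl⟩ := hx
    induction hy using Submodule.span_induction with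
    | zero => unfold D3; simp
    | add a b _ _ ha hb =>
      have : D3 (g i).ofLp (a + b).ofLp z.ofLp =
          D3 (g i).ofLp a.ofLp z.ofLp + D3 (g i).ofLp b.ofLp z.ofLp := by
        unfold D3; simp; ring
      rw [this, ha, hb, add_zero]
    | smul r a _ ha =>
      have : D3 (g i).ofLp (r • a).ofLp z.ofLp = r * D3 (g i).ofLp a.ofLp z.ofLp := by
        unfold D3; simp; ring
      rw [this, ha, mul_zero]
    | mem y hy =>
      obtain ⟨j, rfl⟩ := hy
      induction hz using Submodule.span_induction with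
      | zero => unfold D3; simp
      | add a b _ _ ha hb =>
        have : D3 (g i).ofLp (g j).ofLp (a + b).ofLp =
            D3 (g i).ofLp (g j).ofLp a.ofLp + D3 (g i).ofLp (g j).ofLp b.ofLp := by
          unfold D3; simp; ring
        rw [this, ha, hb, add_zero]
      | smul r a _ ha =>
        have : D3 (g i).ofLp (g j).ofLp (r • a).ofLp = r * D3 (g i).ofLp (g j).ofLp a.ofLp := by
          unfold D3; simp; ring
        rw [this, ha, mul_zero]
      | mem z hz =>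
        obtain ⟨k, rfl⟩ := hz
        exact hall i j k

theorem S4_nonneg (g : Fin 4 → E3) : 0 ≤ S4 g := by unfold S4; positivity

theorem D3_swap12 (a b c : Fin 3 → ℝ) : D3 b a c = - D3 a b c := by unfold D3; ring
theorem D3_swap23 (a b c : Fin 3 → ℝ) : D3 a c b = - D3 a b c := by unfold D3; ring
theorem D3_rep12 (a c : Fin 3 → ℝ) : D3 a a c = 0 := by unfold D3; ring
theorem D3_rep23 (a c : Fin 3 → ℝ) : D3 a c c = 0 := by unfold D3; ring
theorem D3_rep13 (a c : Fin 3 → ℝ) : D3 a c a = 0 := by unfold D3; ring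

theorem all_zero (g : Fin 4 → E3) (h : S4 g = 0) (i j k : Fin 4) :
    D3 (g i).ofLp (g j).ofLp (g k).ofLp = 0 := by
  unfold S4 at h
  have p0 := abs_nonneg (D3 (g 0).ofLp (g 1).ofLp (g 2).ofLp)
  have p1 := abs_nonneg (D3 (g 0).ofLp (g 1).ofLp (g 3).ofLp)
  have p2 := abs_nonneg (D3 (g 0).ofLp (g 2).ofLp (g 3).ofLp)
  have p3 := abs_nonneg (D3 (g 1).ofLp (g 2).ofLp (g 3).ofLp)
  have h0 : D3 (g 0).ofLp (g 1).ofLp (g 2).ofLp = 0 := abs_eq_zero.1 (by linarith)
  have h1 : D3 (g 0).ofLp (g 1).ofLp (g 3).ofLp = 0 := abs_eq_zero.1 (by linarith)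
  have h2 : D3 (g 0).ofLp (g 2).ofLp (g 3).ofLp = 0 := abs_eq_zero.1 (by linarith)
  have h3 : D3 (g 1).ofLp (g 2).ofLp (g 3).ofLp = 0 := abs_eq_zero.1 (by linarith)
  clear h p0 p1 p2 p3
  unfold D3 at *
  fin_cases i <;> fin_cases j <;> fin_cases k <;>
  simp only [Fin.zero_eta, Fin.mk_one, Fin.reduceFinMk] <;>
  first
    | ring1
    | (linear_combination h0)
    | (linear_combination h1)
    | (linear_combination h2)
    | (linear_combination h3)
    | (linear_combination -h0)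
    | (linear_combination -h1)
    | (linear_combination -h2)
    | (linear_combination -h3)

theorem S4_pos_of_span (g : Fin 4 → E3) (h : Submodule.span ℝ (range g) = ⊤) : 0 < S4 g := by
  rcases (S4_nonneg g).lt_or_eq with h0 | h0
  · exact h0
  exfalso
  have := D_zero_of_span g (all_zero g h0.symm) (EuclideanSpace.single 0 1)
    (EuclideanSpace.single 1 1) (EuclideanSpace.single 2 1) (by rw [h]; trivial)
    (by rw [h]; trivial) (by rw [h]; trivial)
  unfold D3 at this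
  simp at this

/-- the generators -/
noncomputable def X (δ : ℝ) : Fin 4 → E3 :=
  ![!₂[1 + δ, 1, 1], !₂[1 + δ, -1, -1], !₂[-1 + δ, 1, -1], !₂[-1 + δ, -1, 1]]

/-- the body -/
noncomputable def Z (l δ : ℝ) : Set E3 := Zono (fun i => l • X δ i)

theorem S4_X {δ : ℝ} (h0 : 0 ≤ δ) (h1 : δ ≤ 1) : S4 (X δ) = 16 := by
  have e1 : D3 (X δ 0).ofLp (X δ 1).ofLp (X δ 2).ofLp = 4 * (1 + δ) := by
    unfold D3 X; simp; ring
  have e2 : D3 (X δ 0).ofLp (X δ 1).ofLp (X δ 3).ofLp = -(4 * (1 + δ)) := by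
    unfold D3 X; simp; ring
  have e3 : D3 (X δ 0).ofLp (X δ 2).ofLp (X δ 3).ofLp = 4 * (1 - δ) := by
    unfold D3 X; simp; ring
  have e4 : D3 (X δ 1).ofLp (X δ 2).ofLp (X δ 3).ofLp = -(4 * (1 - δ)) := by
    unfold D3 X; simp; ring
  unfold S4
  rw [e1, e2, e3, e4, abs_neg, abs_neg, abs_of_nonneg (by linarith), abs_of_nonneg (by linarith)]
  ring

theorem span_X {l δ : ℝ} (hl : 0 < l) (h0 : 0 ≤ δ) :
    Submodule.span ℝ (range fun i => l • X δ i) = ⊤ := by
  rw [Submodule.eq_top_iff']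
  intro v
  have hm : ∀ i, l • X δ i ∈ Submodule.span ℝ (range fun i => l • X δ i) :=
    fun i => Submodule.subset_span ⟨i, rfl⟩
  have e : v = ((v 0 / (2 * (1 + δ)) + v 1 / 4 + v 2 / 4) / l) • (l • X δ 0) +
      ((v 0 / (2 * (1 + δ)) - v 1 / 4 - v 2 / 4) / l) • (l • X δ 1) +
      ((v 1 / 4 - v 2 / 4) / l) • (l • X δ 2) + ((v 2 / 4 - v 1 / 4) / l) • (l • X δ 3) := by
    simp only [smul_smul]
    rw [div_mul_cancel₀ _ hl.ne', div_mul_cancel₀ _ hl.ne', div_mul_cancel₀ _ hl.ne',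
      div_mul_cancel₀ _ hl.ne']
    have hd : 1 + δ ≠ 0 := by positivity
    ext i
    unfold X
    fin_cases i
    · simp
      field_simp
      ring
    · simp
      ring
    · simp
      ring
  rw [e]
  exact Submodule.add_mem _ (Submodule.add_mem _ (Submodule.add_mem _
    (Submodule.smul_mem _ _ (hm 0)) (Submodule.smul_mem _ _ (hm 1)))
    (Submodule.smul_mem _ _ (hm 2))) (Submodule.smul_mem _ _ (hm 3))

theorem isRhombic_Z {l δ : ℝ} (hl : 0 < l) (h0 : 0 ≤ δ) : IsRhombic (Z l δ) :=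
  ⟨_, span_X hl h0, rfl⟩

theorem vol_Z {l δ : ℝ} (hl : 0 < l) (h0 : 0 ≤ δ) (h1 : δ ≤ 1) :
    (volume (Z l δ)).toReal = 16 * l ^ 3 := by
  unfold Z
  rw [vol_Zono, S4_smul _ _ hl.le, S4_X h0 h1]
  · ring
  · rw [S4_smul _ _ hl.le, S4_X h0 h1]
    positivity

theorem norm_comb {δ : ℝ} (h0 : 0 ≤ δ) (h1 : δ ≤ 1 / 4) (s : Fin 4 → ℝ) (hs : ∀ i, |s i| ≤ 1) :
    ‖∑ i, s i • X δ i‖ ≤ 4 := by
  have hsq : ‖∑ i, s i • X δ i‖ ^ 2 ≤ 4 ^ 2 := by
    rw [norm_sq3, Fin.sum_univ_four]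
    have c0 : (s 0 • X δ 0 + s 1 • X δ 1 + s 2 • X δ 2 + s 3 • X δ 3 : E3) 0 =
        (1 + δ) * (s 0 + s 1) - (1 - δ) * (s 2 + s 3) := by
      unfold X; simp; ring
    have c1 : (s 0 • X δ 0 + s 1 • X δ 1 + s 2 • X δ 2 + s 3 • X δ 3 : E3) 1 =
        (s 0 - s 1) + (s 2 - s 3) := by
      unfold X; simp; ring
    have c2 : (s 0 • X δ 0 + s 1 • X δ 1 + s 2 • X δ 2 + s 3 • X δ 3 : E3) 2 =
        (s 0 - s 1) - (s 2 - s 3) := by
      unfold X; simp; ring
    rw [c0, c1, c2]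
    have b0 := abs_le.1 (hs 0)
    have b1 := abs_le.1 (hs 1)
    have b2 := abs_le.1 (hs 2)
    have b3 := abs_le.1 (hs 3)
    have k1 : |s 0 + s 1| + |s 0 - s 1| ≤ 2 := by
      rcases abs_cases (s 0 + s 1) with h | h <;> rcases abs_cases (s 0 - s 1) with h' | h' <;>
        linarith
    have k2 : |s 2 + s 3| + |s 2 - s 3| ≤ 2 := by
      rcases abs_cases (s 2 + s 3) with h | h <;> rcases abs_cases (s 2 - s 3) with h' | h' <;>
        linarith
    set A := |s 0 + s 1| with hA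
    set p := |s 0 - s 1| with hp
    set B := |s 2 + s 3| with hB
    set q := |s 2 - s 3| with hq
    have A0 : 0 ≤ A := abs_nonneg _
    have p0 : 0 ≤ p := abs_nonneg _
    have B0 : 0 ≤ B := abs_nonneg _
    have q0 : 0 ≤ q := abs_nonneg _
    have t1 : ((1 + δ) * (s 0 + s 1) - (1 - δ) * (s 2 + s 3)) ^ 2 ≤
        ((1 + δ) * A + (1 - δ) * B) ^ 2 := by
      rw [← sq_abs]
      apply pow_le_pow_left₀ (abs_nonneg _)
      refine (abs_sub _ _).trans ?_
      rw [abs_mul, abs_mul, abs_of_nonneg (by linarith : 0 ≤ 1 + δ),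
        abs_of_nonneg (by linarith : 0 ≤ 1 - δ)]
    have t2 : ((s 0 - s 1) + (s 2 - s 3)) ^ 2 + ((s 0 - s 1) - (s 2 - s 3)) ^ 2 =
        2 * p ^ 2 + 2 * q ^ 2 := by
      rw [hp, hq, sq_abs, sq_abs]
      ring
    have t3 : p ^ 2 ≤ (2 - A) ^ 2 := pow_le_pow_left₀ p0 (by linarith) 2
    have t4 : q ^ 2 ≤ (2 - B) ^ 2 := pow_le_pow_left₀ q0 (by linarith) 2
    have A2 : A ≤ 2 := by linarith
    have B2 : B ≤ 2 := by linarith
    have key : 2 * (2 - A) ^ 2 + 2 * (2 - B) ^ 2 + ((1 + δ) * A + (1 - δ) * B) ^ 2 ≤ 4 ^ 2 := by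
      have m1 : 0 ≤ A * (2 - B) := mul_nonneg A0 (by linarith)
      have m2 : 0 ≤ B * (2 - A) := mul_nonneg B0 (by linarith)
      have m3 : 0 ≤ A * (2 - A) := mul_nonneg A0 (by linarith)
      have m4 : 0 ≤ B * (2 - B) := mul_nonneg B0 (by linarith)
      have g1 : 0 ≤ 2 - (1 + δ) ^ 2 := by nlinarith
      have g2 : 0 ≤ 2 - (1 - δ) ^ 2 := by nlinarith
      have e : 4 ^ 2 - (2 * (2 - A) ^ 2 + 2 * (2 - B) ^ 2 + ((1 + δ) * A + (1 - δ) * B) ^ 2) =
          (2 + (1 + δ) ^ 2) * (A * (2 - A)) + (2 + (1 - δ) ^ 2) * (B * (2 - B)) +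
          (2 - (1 + δ) ^ 2) * (A * (2 - B)) + (2 - (1 - δ) ^ 2) * (B * (2 - A)) := by ring
      have : 0 ≤ (2 + (1 + δ) ^ 2) * (A * (2 - A)) + (2 + (1 - δ) ^ 2) * (B * (2 - B)) +
          (2 - (1 + δ) ^ 2) * (A * (2 - B)) + (2 - (1 - δ) ^ 2) * (B * (2 - A)) := by positivity
      linarith
    linarith
  exact abs_le_of_sq_le_sq' hsq (by norm_num) |>.2

theorem circ_Z {l δ : ℝ} (hl : 0 < l) (h0 : 0 ≤ δ) (h1 : δ ≤ 1 / 4) :
    circumradius (Z l δ) = 2 * l := by
  apply le_antisymm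
  · apply circumradius_le (by positivity) (c := (1 / 2 : ℝ) • ∑ i, l • X δ i)
    intro x hx
    unfold Z at hx
    rw [Zono_eq] at hx
    obtain ⟨s, hs, rfl⟩ := hx
    rw [Metric.mem_closedBall, dist_eq_norm, add_sub_cancel_left, norm_smul]
    have e : ∑ i, s i • l • X δ i = l • ∑ i, s i • X δ i := by
      rw [Finset.smul_sum]
      exact Finset.sum_congr rfl fun i _ => smul_comm _ _ _
    rw [e, norm_smul, Real.norm_eq_abs, Real.norm_eq_abs, abs_of_pos hl]
    have := norm_comb h0 h1 s hs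
    norm_num
    nlinarith
  · have h := half_sum_le (fun i => l • X δ i) ![1, -1, 1, -1] (by
      intro i
      fin_cases i <;> simp)
    have e : ∑ i, (![1, -1, 1, -1] : Fin 4 → ℝ) i • l • X δ i = (4 * l) •
        EuclideanSpace.single 1 1 := by
      rw [Fin.sum_univ_four]
      ext i
      unfold X
      fin_cases i
      · simp
      · simp
        ring
      · simp
    rw [e, norm_smul, PiLp.norm_single, Real.norm_eq_abs, abs_of_pos (by positivity)] at h
    simp at h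
    unfold Z
    linarith

end Q188.Rhomb
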