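import Pool.Agent.Q188.Rhomb.Ex

/-!
# Regular rhombic dodecahedra in three-space
-/

set_option autoImplicit false

open MeasureTheory Set
open scoped Pointwise

namespace Q188.Rhomb

open Q188.Iso

theorem inner3 (a b : E3) : inner ℝ a b = a 0 * b 0 + a 1 * b 1 + a 2 * b 2 := by
  rw [PiLp.inner_apply, Fin.sum_univ_three]
  simp
  ring

theorem gram (a b c : E3) : (D3 a.ofLp b.ofLp c.ofLp) ^ 2 =
    ‖a‖ ^ 2 * ‖b‖ ^ 2 * ‖c‖ ^ 2 + 2 * (inner ℝ a b * inner ℝ b c * inner ℝ a c)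
      - ‖a‖ ^ 2 * (inner ℝ b c) ^ 2 - ‖b‖ ^ 2 * (inner ℝ a c) ^ 2 - ‖c‖ ^ 2 * (inner ℝ a b) ^ 2 := by
  rw [norm_sq3, norm_sq3, norm_sq3, inner3, inner3, inner3]
  unfold D3
  ring

/-- a regular simplex centred at the origin: the inner products -/
theorem reg_inner {p : Fin 4 → E3} {l : ℝ} (hd : ∀ i j, i ≠ j → dist (p i) (p j) = l)
    (hs : ∑ i, p i = 0) : (∀ i, ‖p i‖ ^ 2 = 3 * (l ^ 2 / 8)) ∧
      ∀ i j, i ≠ j → inner ℝ (p i) (p j) = -(l ^ 2 / 8) := by
  have hd' : ∀ i j, i ≠ j → ‖p i‖ ^ 2 + ‖p j‖ ^ 2 - 2 * inner ℝ (p i) (p j) = l ^ 2 := by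
    intro i j hij
    rw [← hd i j hij, dist_eq_norm, norm_sub_sq_real]
    ring
  have hs' : ∀ i, inner ℝ (p i) (p 0) + inner ℝ (p i) (p 1) + inner ℝ (p i) (p 2) +
      inner ℝ (p i) (p 3) = 0 := by
    intro i
    rw [← inner_add_right, ← inner_add_right, ← inner_add_right, ← Fin.sum_univ_four, hs,
      inner_zero_right]
  have c := fun i j => real_inner_comm (p i) (p j)
  have s := fun i => real_inner_self_eq_norm_sq (p i)
  have d01 := hd' 0 1 (by decide)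
  have d02 := hd' 0 2 (by decide)
  have d03 := hd' 0 3 (by decide)
  have d12 := hd' 1 2 (by decide)
  have d13 := hd' 1 3 (by decide)
  have d23 := hd' 2 3 (by decide)
  have s0 := hs' 0
  have s1 := hs' 1
  have s2 := hs' 2
  have s3 := hs' 3
  rw [s 0] at s0
  rw [s 1, c 0 1] at s1
  rw [s 2, c 0 2, c 1 2] at s2
  rw [s 3, c 0 3, c 1 3, c 2 3] at s3
  have n0 : ‖p 0‖ ^ 2 = 3 * (l ^ 2 / 8) := by linarith
  have n1 : ‖p 1‖ ^ 2 = 3 * (l ^ 2 / 8) := by linarith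
  have n2 : ‖p 2‖ ^ 2 = 3 * (l ^ 2 / 8) := by linarith
  have n3 : ‖p 3‖ ^ 2 = 3 * (l ^ 2 / 8) := by linarith
  have n : ∀ i, ‖p i‖ ^ 2 = 3 * (l ^ 2 / 8) := by
    intro i
    fin_cases i
    · exact n0
    · exact n1
    · exact n2
    · exact n3
  refine ⟨n, fun i j hij => ?_⟩
  have := hd' i j hij
  rw [n i, n j] at this
  linarith

theorem reg_det {p : Fin 4 → E3} {q : ℝ} (hq : 0 ≤ q) (hn : ∀ i, ‖p i‖ ^ 2 = 3 * q)
    (hi : ∀ i j, i ≠ j → inner ℝ (p i) (p j) = -q) : S4 p = 16 * √(q ^ 3) := by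
  have h : ∀ i j k, i ≠ j → j ≠ k → i ≠ k →
      |D3 (p i).ofLp (p j).ofLp (p k).ofLp| = 4 * √(q ^ 3) := by
    intro i j k hij hjk hik
    have h1 := gram (p i) (p j) (p k)
    rw [hn, hn, hn, hi i j hij, hi j k hjk, hi i k hik] at h1
    have h2 : (D3 (p i).ofLp (p j).ofLp (p k).ofLp) ^ 2 = (4 * √(q ^ 3)) ^ 2 := by
      rw [h1, mul_pow, Real.sq_sqrt (by positivity)]
      ring
    rw [← abs_of_nonneg (by positivity : 0 ≤ 4 * √(q ^ 3))]
    exact (sq_eq_sq_iff_abs_eq_abs _ _).1 h2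
  unfold S4
  rw [h 0 1 2 (by decide) (by decide) (by decide), h 0 1 3 (by decide) (by decide) (by decide),
    h 0 2 3 (by decide) (by decide) (by decide), h 1 2 3 (by decide) (by decide) (by decide)]
  ring

theorem parseval3 {a b c : E3} {κ : ℝ} (hκ : 0 < κ) (ha : ‖a‖ ^ 2 = κ) (hb : ‖b‖ ^ 2 = κ)
    (hc : ‖c‖ ^ 2 = κ) (hab : inner ℝ a b = 0) (hac : inner ℝ a c = 0) (hbc : inner ℝ b c = 0)
    (u : E3) : (inner ℝ a u) ^ 2 + (inner ℝ b u) ^ 2 + (inner ℝ c u) ^ 2 = κ * ‖u‖ ^ 2 := by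
  -- `M Mᵀ = κ`, hence `Mᵀ M = κ`
  obtain ⟨M, r0, r1, r2⟩ : ∃ M : Matrix (Fin 3) (Fin 3) ℝ, (∀ j, M 0 j = a j) ∧
      (∀ j, M 1 j = b j) ∧ (∀ j, M 2 j = c j) :=
    ⟨Matrix.of ![a.ofLp, b.ofLp, c.ofLp], fun j => rfl, fun j => rfl, fun j => rfl⟩
  have h1 : M * M.transpose = κ • (1 : Matrix (Fin 3) (Fin 3) ℝ) := by
    rw [norm_sq3] at ha hb hc
    rw [inner3] at hab hac hbc
    ext i j
    rw [Matrix.mul_apply, Fin.sum_univ_three, Matrix.transpose_apply, Matrix.transpose_apply,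
      Matrix.transpose_apply]
    fin_cases i <;> fin_cases j <;> simp [r0, r1, r2] <;> linarith
  have h2 : M.transpose * M = κ • (1 : Matrix (Fin 3) (Fin 3) ℝ) := by
    have h3 : M * (κ⁻¹ • M.transpose) = 1 := by
      rw [Matrix.mul_smul, h1, smul_smul, inv_mul_cancel₀ hκ.ne', one_smul]
    have h4 : (κ⁻¹ • M.transpose) * M = 1 := mul_eq_one_comm.1 h3
    rw [Matrix.smul_mul] at h4
    have h5 := congrArg (fun N => κ • N) h4
    simp only [smul_smul] at h5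
    rw [mul_inv_cancel₀ hκ.ne', one_smul] at h5
    exact h5
  have e : ∀ i j, (M.transpose * M) i j = a i * a j + b i * b j + c i * c j := by
    intro i j
    rw [Matrix.mul_apply, Fin.sum_univ_three, Matrix.transpose_apply, Matrix.transpose_apply,
      Matrix.transpose_apply, r0, r0, r1, r1, r2, r2]
  have f : ∀ i j, a i * a j + b i * b j + c i * c j = κ * (if i = j then 1 else 0) := by
    intro i j
    rw [← e, h2]
    simp [Matrix.one_apply]
  have f00 := f 0 0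
  have f11 := f 1 1
  have f22 := f 2 2
  have f01 := f 0 1
  have f02 := f 0 2
  have f12 := f 1 2
  simp at f00 f11 f22 f01 f02 f12
  rw [norm_sq3, inner3, inner3, inner3]
  linear_combination u 0 ^ 2 * f00 + u 1 ^ 2 * f11 + u 2 ^ 2 * f22 + 2 * u 0 * u 1 * f01 +
    2 * u 0 * u 2 * f02 + 2 * u 1 * u 2 * f12

theorem reg_frame {p : Fin 4 → E3} {q : ℝ} (hq : 0 < q) (hn : ∀ i, ‖p i‖ ^ 2 = 3 * q)
    (hi : ∀ i j, i ≠ j → inner ℝ (p i) (p j) = -q) (hs : ∑ i, p i = 0) (u : E3) :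
    (inner ℝ (p 0) u) ^ 2 + (inner ℝ (p 1) u) ^ 2 + (inner ℝ (p 2) u) ^ 2 +
      (inner ℝ (p 3) u) ^ 2 = 4 * q * ‖u‖ ^ 2 := by
  have nn : ∀ i j, i ≠ j → ‖p i + p j‖ ^ 2 = 4 * q := by
    intro i j hij
    rw [norm_add_sq_real, hn, hn, hi i j hij]
    ring
  have s := fun i => real_inner_self_eq_norm_sq (p i)
  have h := parseval3 (by positivity : 0 < 4 * q) (nn 0 1 (by decide)) (nn 0 2 (by decide))
    (nn 0 3 (by decide)) (by
      rw [inner_add_left, inner_add_right, inner_add_right, s, hn, hi 0 2 (by decide),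
        hi 1 0 (by decide), hi 1 2 (by decide)]
      ring) (by
      rw [inner_add_left, inner_add_right, inner_add_right, s, hn, hi 0 3 (by decide),
        hi 1 0 (by decide), hi 1 3 (by decide)]
      ring) (by
      rw [inner_add_left, inner_add_right, inner_add_right, s, hn, hi 0 3 (by decide),
        hi 2 0 (by decide), hi 2 3 (by decide)]
      ring) u
  have h0 : inner ℝ (p 0) u + inner ℝ (p 1) u + inner ℝ (p 2) u + inner ℝ (p 3) u = 0 := by
    rw [← inner_add_left, ← inner_add_left, ← inner_add_left, ← Fin.sum_univ_four, hs,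
      inner_zero_left]
  rw [inner_add_left, inner_add_left, inner_add_left] at h
  rw [← h]
  have h3 : inner ℝ (p 3) u = -(inner ℝ (p 0) u + inner ℝ (p 1) u + inner ℝ (p 2) u) := by linarith
  rw [h3]
  ring

theorem abs_sum_sq {y0 y1 y2 y3 : ℝ} (h : y0 + y1 + y2 + y3 = 0) :
    2 * (y0 ^ 2 + y1 ^ 2 + y2 ^ 2 + y3 ^ 2) ≤ (|y0| + |y1| + |y2| + |y3|) ^ 2 := by
  have e0 := sq_abs y0
  have e1 := sq_abs y1
  have e2 := sq_abs y2
  have e3 := sq_abs y3
  have m01 : -(y0 * y1) ≤ |y0| * |y1| := by rw [← abs_mul]; exact neg_le_abs _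
  have m02 : -(y0 * y2) ≤ |y0| * |y2| := by rw [← abs_mul]; exact neg_le_abs _
  have m03 : -(y0 * y3) ≤ |y0| * |y3| := by rw [← abs_mul]; exact neg_le_abs _
  have m12 : -(y1 * y2) ≤ |y1| * |y2| := by rw [← abs_mul]; exact neg_le_abs _
  have m13 : -(y1 * y3) ≤ |y1| * |y3| := by rw [← abs_mul]; exact neg_le_abs _
  have m23 : -(y2 * y3) ≤ |y2| * |y3| := by rw [← abs_mul]; exact neg_le_abs _
  have hsq : (y0 + y1 + y2 + y3) ^ 2 = 0 := by rw [h]; ring
  nlinarith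

/-- the width of a zonotope in the direction `u` -/
theorem width_le {n : ℕ} (p : Fin n → E3) (u x y : E3) (hx : x ∈ Zono p) (hy : y ∈ Zono p) :
    inner ℝ (x - y) u ≤ ∑ i, |inner ℝ (p i) u| := by
  rw [mem_Zono] at hx hy
  obtain ⟨s, hs, rfl⟩ := hx
  obtain ⟨t, ht, rfl⟩ := hy
  rw [← Finset.sum_sub_distrib, sum_inner]
  refine Finset.sum_le_sum fun i _ => ?_
  rw [← sub_smul, inner_smul_left]
  simp only [conj_trivial]
  have h1 := hs i
  have h2 := ht i
  refine (le_abs_self _).trans ?_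
  rw [abs_mul]
  have : |s i - t i| ≤ 1 := by rw [abs_le]; constructor <;> linarith
  have := abs_nonneg (inner ℝ (p i) u)
  nlinarith

theorem width_ge {n : ℕ} (p : Fin n → E3) (u : E3) :
    ∃ x ∈ Zono p, ∃ y ∈ Zono p, inner ℝ (x - y) u = ∑ i, |inner ℝ (p i) u| := by
  classical
  refine ⟨∑ i, (if 0 ≤ inner ℝ (p i) u then (1 : ℝ) else 0) • p i, ?_,
    ∑ i, (if 0 ≤ inner ℝ (p i) u then (0 : ℝ) else 1) • p i, ?_, ?_⟩
  · rw [mem_Zono]
    refine ⟨_, fun i => ?_, rfl⟩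
    split_ifs <;> norm_num
  · rw [mem_Zono]
    refine ⟨_, fun i => ?_, rfl⟩
    split_ifs <;> norm_num
  · rw [← Finset.sum_sub_distrib, sum_inner]
    refine Finset.sum_congr rfl fun i _ => ?_
    rw [← sub_smul, inner_smul_left]
    simp only [conj_trivial]
    split_ifs with h
    · rw [abs_of_nonneg h]; ring
    · rw [abs_of_neg (not_le.1 h)]; ring

theorem not_regular {l : ℝ} (hl : 0 < l) : ¬ IsRegularRhombic (Z l (1 / 4)) := by
  rintro ⟨v, p, ⟨m, hm, hd⟩, hs, hZ⟩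
  obtain ⟨hn, hi⟩ := reg_inner hd hs
  set q := m ^ 2 / 8 with hq
  have hq0 : 0 < q := by positivity
  -- volumes
  have hS := reg_det hq0.le hn hi
  have hSpos : 0 < S4 p := by rw [hS]; positivity
  have hv1 := vol_Zono p hSpos
  have hv2 := vol_Z hl (by norm_num : (0 : ℝ) ≤ 1 / 4) (by norm_num)
  have hv3 : volume ((fun x => v + x) '' Zono p) = volume (Zono p) := by
    rw [image_add_left, measure_preimage_add]
  rw [hZ, hv3, hv1, hS] at hv2
  have hql : q = l ^ 2 := by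
    have h1 : √(q ^ 3) = l ^ 3 := by linarith
    have h2 : q ^ 3 = (l ^ 2) ^ 3 := by
      have := Real.sq_sqrt (by positivity : 0 ≤ q ^ 3)
      rw [h1] at this
      rw [← this]
      ring
    exact (pow_left_inj₀ hq0.le (by positivity) (by norm_num)).1 h2
  -- widths
  set u : E3 := !₂[2, 2, 1 / 2] with hu
  have hnu : ‖u‖ ^ 2 = 33 / 4 := by
    rw [norm_sq3, hu]
    simp
    norm_num
  obtain ⟨x, hx, y, hy, hxy⟩ := width_ge p u
  have hx' : v + x ∈ Z l (1 / 4) := by rw [hZ]; exact ⟨x, hx, rfl⟩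
  have hy' : v + y ∈ Z l (1 / 4) := by rw [hZ]; exact ⟨y, hy, rfl⟩
  have hw := width_le (fun i => l • X (1 / 4) i) u (v + x) (v + y) hx' hy'
  rw [add_sub_add_left_eq_sub, hxy] at hw
  have hw2 : ∑ i, |inner ℝ (l • X (1 / 4) i) u| = 8 * l := by
    have i0 : inner ℝ (l • X (1 / 4) 0) u = l * 5 := by
      rw [inner_smul_left, inner3, hu]
      unfold X
      simp
      left
      norm_num
    have i1 : inner ℝ (l • X (1 / 4) 1) u = l * 0 := by
      rw [inner_smul_left, inner3, hu]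
      unfold X
      simp
      right
      norm_num
    have i2 : inner ℝ (l • X (1 / 4) 2) u = l * 0 := by
      rw [inner_smul_left, inner3, hu]
      unfold X
      simp
      right
      norm_num
    have i3 : inner ℝ (l • X (1 / 4) 3) u = l * (-3) := by
      rw [inner_smul_left, inner3, hu]
      unfold X
      simp
      ring
    rw [Fin.sum_univ_four, i0, i1, i2, i3]
    simp only [abs_mul, abs_of_pos hl]
    norm_num
    ring
  rw [hw2, Fin.sum_univ_four] at hw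
  have h0 : inner ℝ (p 0) u + inner ℝ (p 1) u + inner ℝ (p 2) u + inner ℝ (p 3) u = 0 := by
    rw [← inner_add_left, ← inner_add_left, ← inner_add_left, ← Fin.sum_univ_four, hs,
      inner_zero_left]
  have hf := reg_frame hq0 hn hi hs u
  have hab := abs_sum_sq h0
  rw [hf, hnu, hql] at hab
  have h9 : (|inner ℝ (p 0) u| + |inner ℝ (p 1) u| + |inner ℝ (p 2) u| + |inner ℝ (p 3) u|) ^ 2 ≤
      (8 * l) ^ 2 := pow_le_pow_left₀ (by positivity) hw 2
  nlinarith [mul_pos hl hl]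

end Q188.Rhomb
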