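import Pool.Agent.Q188.Rhomb.Defs
import Pool.Agent.Q188.Iso.Geo

/-!
# Volume and circumradius of zonotopes with four generators
-/

set_option autoImplicit false

open MeasureTheory Set
open scoped Pointwise

namespace Q188.Rhomb

open Q188.Iso

theorem Zono_eq {d n : ℕ} (p : Fin n → EuclideanSpace ℝ (Fin d)) (x : EuclideanSpace ℝ (Fin d)) :
    x ∈ Zono p ↔ ∃ s : Fin n → ℝ, (∀ i, |s i| ≤ 1) ∧
      x = (1 / 2 : ℝ) • ∑ i, p i + (1 / 2 : ℝ) • ∑ i, s i • p i := by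
  rw [mem_Zono]
  constructor
  · rintro ⟨t, ht, rfl⟩
    refine ⟨fun i => 2 * t i - 1, fun i => ?_, ?_⟩
    · have := ht i
      rw [abs_le]
      constructor <;> linarith
    · rw [← smul_add, ← Finset.sum_add_distrib, Finset.smul_sum]
      refine Finset.sum_congr rfl fun i _ => ?_
      rw [sub_smul, one_smul, add_sub_cancel, smul_smul]
      congr 1
      ring
  · rintro ⟨s, hs, rfl⟩
    refine ⟨fun i => (1 + s i) / 2, fun i => ?_, ?_⟩
    · have := abs_le.1 (hs i)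
      constructor <;> linarith
    · rw [← smul_add, ← Finset.sum_add_distrib, Finset.smul_sum]
      refine Finset.sum_congr rfl fun i _ => ?_
      rw [← one_smul ℝ (p i), smul_smul, smul_smul, ← add_smul, smul_smul]
      congr 1
      ring

theorem S4_smul (g : Fin 4 → E3) (c : ℝ) (hc : 0 ≤ c) :
    S4 (fun i => c • g i) = c ^ 3 * S4 g := by
  have h : ∀ a b e : E3, |D3 (c • a).ofLp (c • b).ofLp (c • e).ofLp| =
      c ^ 3 * |D3 a.ofLp b.ofLp e.ofLp| := by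
    intro a b e
    have : D3 (c • a).ofLp (c • b).ofLp (c • e).ofLp = c ^ 3 * D3 a.ofLp b.ofLp e.ofLp := by
      unfold D3
      simp
      ring
    rw [this, abs_mul, abs_of_nonneg (by positivity)]
  unfold S4
  rw [h, h, h, h]
  ring

theorem vol_Zono (g : Fin 4 → E3) (h : 0 < S4 g) : (volume (Zono g)).toReal = S4 g := by
  have e : Zono g = (fun x => x + (1 / 2 : ℝ) • ∑ i, g i) '' W (fun i => (1 / 2 : ℝ) • g i) := by
    ext x
    rw [Zono_eq]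
    simp only [W, mem_image, mem_ofPred_eq]
    constructor
    · rintro ⟨s, hs, rfl⟩
      refine ⟨(1 / 2 : ℝ) • ∑ i, s i • g i, ⟨s, hs, ?_⟩, by rw [add_comm]⟩
      rw [Finset.smul_sum]
      exact Finset.sum_congr rfl fun i _ => smul_comm _ _ _
    · rintro ⟨y, ⟨s, hs, rfl⟩, rfl⟩
      refine ⟨s, hs, ?_⟩
      rw [add_comm, Finset.smul_sum (s := Finset.univ) (f := fun i => s i • g i)]
      congr 1
      exact Finset.sum_congr rfl fun i _ => smul_comm _ _ _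
  have h2 := S4_smul g (1 / 2) (by norm_num)
  rw [e, image_add_right, measure_preimage_add_right, vol_W, h2]
  · ring
  · rw [h2]
    positivity

theorem bounded_Zono {d n : ℕ} (p : Fin n → EuclideanSpace ℝ (Fin d)) :
    ∃ r : ℝ, 0 ≤ r ∧ ∃ c, Zono p ⊆ Metric.closedBall c r := by
  refine ⟨∑ i, ‖p i‖, Finset.sum_nonneg fun i _ => norm_nonneg _, 0, ?_⟩
  intro x hx
  rw [mem_Zono] at hx
  obtain ⟨t, ht, rfl⟩ := hx
  rw [mem_closedBall_zero_iff]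
  refine (norm_sum_le _ _).trans (Finset.sum_le_sum fun i _ => ?_)
  rw [norm_smul, Real.norm_eq_abs, abs_of_nonneg (ht i).1]
  have := (ht i).2
  have := norm_nonneg (p i)
  nlinarith

theorem circumradius_le {d : ℕ} {Z : Set (EuclideanSpace ℝ (Fin d))} {r : ℝ} (hr : 0 ≤ r)
    {c : EuclideanSpace ℝ (Fin d)} (h : Z ⊆ Metric.closedBall c r) : circumradius Z ≤ r :=
  csInf_le ⟨0, fun _ hx => hx.1⟩ ⟨hr, c, h⟩

theorem le_circumradius {d n : ℕ} (p : Fin n → EuclideanSpace ℝ (Fin d))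
    {x y : EuclideanSpace ℝ (Fin d)} (hx : x ∈ Zono p) (hy : y ∈ Zono p) :
    dist x y ≤ 2 * circumradius (Zono p) := by
  have : dist x y / 2 ≤ circumradius (Zono p) := by
    apply le_csInf (bounded_Zono p)
    rintro r ⟨hr, c, hc⟩
    have h1 := hc hx
    have h2 := hc hy
    rw [Metric.mem_closedBall] at h1 h2
    have := dist_triangle_right x y c
    linarith
  linarith

theorem circumradius_nonneg {d : ℕ} (Z : Set (EuclideanSpace ℝ (Fin d))) :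
    0 ≤ circumradius Z := Real.sInf_nonneg fun _ hx => hx.1

theorem half_sum_le {d n : ℕ} (p : Fin n → EuclideanSpace ℝ (Fin d)) (s : Fin n → ℝ)
    (hs : ∀ i, |s i| ≤ 1) : ‖∑ i, s i • p i‖ ≤ 2 * circumradius (Zono p) := by
  have hx : (1 / 2 : ℝ) • ∑ i, p i + (1 / 2 : ℝ) • ∑ i, s i • p i ∈ Zono p := by
    rw [Zono_eq]
    exact ⟨s, hs, rfl⟩
  have hy : (1 / 2 : ℝ) • ∑ i, p i + (1 / 2 : ℝ) • ∑ i, (- s i) • p i ∈ Zono p := by
    rw [Zono_eq]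
    exact ⟨fun i => - s i, fun i => by rw [abs_neg]; exact hs i, rfl⟩
  have h := le_circumradius p hx hy
  rw [dist_eq_norm] at h
  have e : (1 / 2 : ℝ) • ∑ i, p i + (1 / 2 : ℝ) • ∑ i, s i • p i -
      ((1 / 2 : ℝ) • ∑ i, p i + (1 / 2 : ℝ) • ∑ i, (- s i) • p i) = ∑ i, s i • p i := by
    simp only [neg_smul, Finset.sum_neg_distrib, smul_neg]
    rw [add_sub_add_left_eq_sub, sub_neg_eq_add, ← add_smul]
    norm_num
  rwa [e] at h

/-- Hadamard's inequality -/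
theorem hadamard (a b c : E3) : |D3 a.ofLp b.ofLp c.ofLp| ≤ ‖a‖ * ‖b‖ * ‖c‖ := by
  apply abs_le_of_sq_le_sq _ (by positivity)
  rw [mul_pow, mul_pow, EuclideanSpace.norm_sq_eq, EuclideanSpace.norm_sq_eq,
    EuclideanSpace.norm_sq_eq]
  simp only [Fin.sum_univ_three, Real.norm_eq_abs, sq_abs]
  unfold D3
  set a0 := a.ofLp 0
  set a1 := a.ofLp 1
  set a2 := a.ofLp 2
  set b0 := b.ofLp 0
  set b1 := b.ofLp 1
  set b2 := b.ofLp 2
  set c0 := c.ofLp 0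
  set c1 := c.ofLp 1
  set c2 := c.ofLp 2
  have h1 : (a0 * (b1 * c2 - b2 * c1) - a1 * (b0 * c2 - b2 * c0) + a2 * (b0 * c1 - b1 * c0)) ^ 2 ≤
      (a0 ^ 2 + a1 ^ 2 + a2 ^ 2) *
        ((b1 * c2 - b2 * c1) ^ 2 + (b0 * c2 - b2 * c0) ^ 2 + (b0 * c1 - b1 * c0) ^ 2) := by
    nlinarith [sq_nonneg (a0 * (b0 * c2 - b2 * c0) + a1 * (b1 * c2 - b2 * c1)),
      sq_nonneg (a0 * (b0 * c1 - b1 * c0) - a2 * (b1 * c2 - b2 * c1)),
      sq_nonneg (a1 * (b0 * c1 - b1 * c0) + a2 * (b0 * c2 - b2 * c0))]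
  have h2 : (b1 * c2 - b2 * c1) ^ 2 + (b0 * c2 - b2 * c0) ^ 2 + (b0 * c1 - b1 * c0) ^ 2 ≤
      (b0 ^ 2 + b1 ^ 2 + b2 ^ 2) * (c0 ^ 2 + c1 ^ 2 + c2 ^ 2) := by
    nlinarith [sq_nonneg (b0 * c0 + b1 * c1 + b2 * c2)]
  calc _ ≤ (a0 ^ 2 + a1 ^ 2 + a2 ^ 2) *
        ((b1 * c2 - b2 * c1) ^ 2 + (b0 * c2 - b2 * c0) ^ 2 + (b0 * c1 - b1 * c0) ^ 2) := h1
    _ ≤ (a0 ^ 2 + a1 ^ 2 + a2 ^ 2) * ((b0 ^ 2 + b1 ^ 2 + b2 ^ 2) * (c0 ^ 2 + c1 ^ 2 + c2 ^ 2)) := by
        gcongr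
    _ = _ := by ring

/-- the volume is at most twice the cube of the circumradius -/
theorem S4_le (g : Fin 4 → E3) : S4 g ≤ 2 * circumradius (Zono g) ^ 3 := by
  -- signs
  have hsign : ∀ x : ℝ, ∃ e : ℝ, (e = 1 ∨ e = -1) ∧ |x| = e * x := by
    intro x
    rcases le_total 0 x with h | h
    · exact ⟨1, Or.inl rfl, by rw [abs_of_nonneg h, one_mul]⟩
    · exact ⟨-1, Or.inr rfl, by rw [abs_of_nonpos h]; ring⟩
  obtain ⟨e0, he0, h0⟩ := hsign (D3 (g 1).ofLp (g 2).ofLp (g 3).ofLp)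
  obtain ⟨e1, he1, h1⟩ := hsign (- D3 (g 0).ofLp (g 2).ofLp (g 3).ofLp)
  obtain ⟨e2, he2, h2⟩ := hsign (D3 (g 0).ofLp (g 1).ofLp (g 3).ofLp)
  obtain ⟨e3, he3, h3⟩ := hsign (- D3 (g 0).ofLp (g 1).ofLp (g 2).ofLp)
  rw [abs_neg] at h1 h3
  have q0 : e0 ^ 2 = 1 := by rcases he0 with h | h <;> rw [h] <;> norm_num
  have q1 : e1 ^ 2 = 1 := by rcases he1 with h | h <;> rw [h] <;> norm_num
  have q2 : e2 ^ 2 = 1 := by rcases he2 with h | h <;> rw [h] <;> norm_num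
  have q3 : e3 ^ 2 = 1 := by rcases he3 with h | h <;> rw [h] <;> norm_num
  have ab : ∀ e : ℝ, (e = 1 ∨ e = -1) → |e| ≤ 1 := by
    rintro e (h | h) <;> rw [h] <;> norm_num
  set R := circumradius (Zono g) with hR
  have hR0 : 0 ≤ R := circumradius_nonneg _
  set a : E3 := e0 • g 0 + e1 • g 1 - e2 • g 2 - e3 • g 3 with ha
  set b : E3 := e0 • g 0 - e1 • g 1 + e2 • g 2 - e3 • g 3 with hb
  set c : E3 := e0 • g 0 - e1 • g 1 - e2 • g 2 + e3 • g 3 with hc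
  have na : ‖a‖ ≤ 2 * R := by
    have := half_sum_le g ![e0, e1, -e2, -e3] (by
      intro i
      fin_cases i
      · exact ab e0 he0
      · exact ab e1 he1
      · show |-e2| ≤ 1
        rw [abs_neg]; exact ab e2 he2
      · show |-e3| ≤ 1
        rw [abs_neg]; exact ab e3 he3)
    rw [Fin.sum_univ_four] at this
    convert this using 2
    show a = e0 • g 0 + e1 • g 1 + (-e2) • g 2 + (-e3) • g 3
    rw [ha, neg_smul, neg_smul]
    abel
  have nb : ‖b‖ ≤ 2 * R := by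
    have := half_sum_le g ![e0, -e1, e2, -e3] (by
      intro i
      fin_cases i
      · exact ab e0 he0
      · show |-e1| ≤ 1
        rw [abs_neg]; exact ab e1 he1
      · exact ab e2 he2
      · show |-e3| ≤ 1
        rw [abs_neg]; exact ab e3 he3)
    rw [Fin.sum_univ_four] at this
    convert this using 2
    show b = e0 • g 0 + (-e1) • g 1 + e2 • g 2 + (-e3) • g 3
    rw [hb, neg_smul, neg_smul]
    abel
  have nc : ‖c‖ ≤ 2 * R := by
    have := half_sum_le g ![e0, -e1, -e2, e3] (by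
      intro i
      fin_cases i
      · exact ab e0 he0
      · show |-e1| ≤ 1
        rw [abs_neg]; exact ab e1 he1
      · show |-e2| ≤ 1
        rw [abs_neg]; exact ab e2 he2
      · exact ab e3 he3)
    rw [Fin.sum_univ_four] at this
    convert this using 2
    show c = e0 • g 0 + (-e1) • g 1 + (-e2) • g 2 + e3 • g 3
    rw [hc, neg_smul, neg_smul]
    abel
  have key : -(e0 * e1 * e2 * e3 * D3 a.ofLp b.ofLp c.ofLp) = 4 * S4 g := by
    have : S4 g = |D3 (g 0).ofLp (g 1).ofLp (g 2).ofLp| + |D3 (g 0).ofLp (g 1).ofLp (g 3).ofLp| +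
      |D3 (g 0).ofLp (g 2).ofLp (g 3).ofLp| + |D3 (g 1).ofLp (g 2).ofLp (g 3).ofLp| := rfl
    rw [this, h0, h1, h2, h3]
    have e : D3 a.ofLp b.ofLp c.ofLp = -4 * (e1 * e2 * e3 * D3 (g 1).ofLp (g 2).ofLp (g 3).ofLp
        - e0 * e2 * e3 * D3 (g 0).ofLp (g 2).ofLp (g 3).ofLp
        + e0 * e1 * e3 * D3 (g 0).ofLp (g 1).ofLp (g 3).ofLp
        - e0 * e1 * e2 * D3 (g 0).ofLp (g 1).ofLp (g 2).ofLp) := by
      rw [ha, hb, hc]
      unfold D3
      simp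
      ring
    rw [e]
    set X0 := D3 (g 1).ofLp (g 2).ofLp (g 3).ofLp
    set X1 := D3 (g 0).ofLp (g 2).ofLp (g 3).ofLp
    set X2 := D3 (g 0).ofLp (g 1).ofLp (g 3).ofLp
    set X3 := D3 (g 0).ofLp (g 1).ofLp (g 2).ofLp
    calc -(e0 * e1 * e2 * e3 * (-4 * (e1 * e2 * e3 * X0 - e0 * e2 * e3 * X1 + e0 * e1 * e3 * X2
          - e0 * e1 * e2 * X3)))
        = 4 * (e1 ^ 2 * e2 ^ 2 * e3 ^ 2 * (e0 * X0) - e0 ^ 2 * e2 ^ 2 * e3 ^ 2 * (e1 * X1)
          + e0 ^ 2 * e1 ^ 2 * e3 ^ 2 * (e2 * X2) - e0 ^ 2 * e1 ^ 2 * e2 ^ 2 * (e3 * X3)) := by ring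
      _ = _ := by rw [q0, q1, q2, q3]; ring
  have h4 : |e0 * e1 * e2 * e3| = 1 := by
    have : (e0 * e1 * e2 * e3) ^ 2 = 1 := by
      calc (e0 * e1 * e2 * e3) ^ 2 = e0 ^ 2 * e1 ^ 2 * e2 ^ 2 * e3 ^ 2 := by ring
        _ = 1 := by rw [q0, q1, q2, q3]; ring
    rw [← sq_abs] at this
    nlinarith [abs_nonneg (e0 * e1 * e2 * e3)]
  have h5 : 4 * S4 g ≤ |D3 a.ofLp b.ofLp c.ofLp| := by
    rw [← key]
    refine (neg_le_abs _).trans ?_
    rw [abs_mul, h4, one_mul]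
  have h6 := hadamard a b c
  have h7 : ‖a‖ * ‖b‖ * ‖c‖ ≤ (2 * R) * (2 * R) * (2 * R) := by
    gcongr
  nlinarith

end Q188.Rhomb
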